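import Pool.Agent.Helper23.MC.Goals3
import Pool.Agent.Helper24.PP.MA

set_option autoImplicit false

open Finset Filter Topology

open scoped Classical

namespace Pool.Agent.Helper7.MC

open Pool.Agent.Helper88.PP (SS Sf ee)

/-- Abel's inequality. -/
theorem abel (F D : ℕ → ℝ) (hF : ∀ e, F (e + 1) ≤ F e) (hD : ∀ e, 0 ≤ D e)
    (hD0 : D 0 = 0) (M : ℕ) :
    F M * D M ≤ ∑ e ∈ range M, F (e + 1) * (D (e + 1) - D e) := by
  induction M with
  | zero => simp [hD0]
  | succ M ih =>
    rw [Finset.sum_range_succ]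
    have h := mul_le_mul_of_nonneg_right (hF M) (hD M)
    nlinarith

/-- the masses -/
noncomputable def Ph (z m : ℕ) : ℝ := ∑ s ∈ SS z (z ^ m), 1 / (Nat.totient s : ℝ)

theorem Ph_zero (z : ℕ) : Ph z 0 = 0 := by
  unfold Ph SS
  simp

/-- the layer of the numbers with `ee = m + 1` -/
theorem layer (z m : ℕ) (hz : 2 ≤ z) (f : ℕ → ℝ) :
    ∑ s ∈ SS z (z ^ (m + 1)), f s =
      ∑ s ∈ SS z (z ^ m), f s + ∑ s ∈ (SS z (z ^ (m + 1))).filter (fun s => z ^ m ≤ s), f s := by
  have h : SS z (z ^ m) = (SS z (z ^ (m + 1))).filter (fun s => ¬ z ^ m ≤ s) := by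
    ext s
    simp only [SS, mem_filter, mem_Ico, not_le]
    constructor
    · rintro ⟨⟨h1, h2⟩, h3⟩
      have : z ^ m ≤ z ^ (m + 1) := Nat.pow_le_pow_right (by omega) (Nat.le_succ m)
      exact ⟨⟨⟨h1, by omega⟩, h3⟩, h2⟩
    · rintro ⟨⟨⟨h1, _⟩, h3⟩, h2⟩
      exact ⟨⟨h1, h2⟩, h3⟩
  have h2 := Finset.sum_filter_add_sum_filter_not (SS z (z ^ (m + 1))) (fun s => z ^ m ≤ s) f
  rw [h]
  linarith

theorem ee_layer (z m s : ℕ) (hz : 2 ≤ z)
    (hs : s ∈ (SS z (z ^ (m + 1))).filter (fun s => z ^ m ≤ s)) : ee z s = m + 1 := by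
  simp only [SS, mem_filter, mem_Ico] at hs
  obtain ⟨⟨⟨_, h2⟩, _⟩, h3⟩ := hs
  unfold ee
  have : Nat.log z s = m := by
    rw [Nat.log_eq_iff (by right; exact ⟨by omega, by positivity⟩)]
    · exact ⟨h3, h2⟩
  omega

theorem decomp (z : ℕ) (hz : 2 ≤ z) (F : ℕ → ℝ) (M : ℕ) :
    ∑ s ∈ SS z (z ^ M), F (ee z s) * (1 / (Nat.totient s : ℝ)) =
      ∑ e ∈ range M, F (e + 1) * (Ph z (e + 1) - Ph z e) := by
  induction M with
  | zero =>
    have : SS z (z ^ 0) = ∅ := by unfold SS; simp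
    rw [this]
    simp
  | succ M ih =>
    rw [layer z M hz, Finset.sum_range_succ, ih]
    congr 1
    have h1 : Ph z (M + 1) - Ph z M =
        ∑ s ∈ (SS z (z ^ (M + 1))).filter (fun s => z ^ M ≤ s), 1 / (Nat.totient s : ℝ) := by
      unfold Ph
      rw [layer z M hz]
      ring
    rw [h1, Finset.mul_sum]
    apply Finset.sum_congr rfl
    intro s hs
    rw [ee_layer z M s hz hs]

theorem bounds (z : ℕ) (hz : 2 ≤ z) (c C : ℝ)
    (hc : ∀ m, 1 ≤ m → c * m ≤ Ph z m) (hC : ∀ m, 1 ≤ m → Ph z m ≤ C * m) (F : ℕ → ℝ)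
    (hF : ∀ e, F (e + 1) ≤ F e) (hF0 : ∀ e, 0 ≤ F e) (M : ℕ) :
    c * ∑ e ∈ range M, F (e + 1) ≤ ∑ s ∈ SS z (z ^ M), F (ee z s) * (1 / (Nat.totient s : ℝ)) ∧
    ∑ s ∈ SS z (z ^ M), F (ee z s) * (1 / (Nat.totient s : ℝ)) ≤ C * ∑ e ∈ range M, F (e + 1) := by
  rw [decomp z hz]
  constructor
  · have hD : ∀ e, 0 ≤ Ph z e - c * e := by
      intro e
      rcases Nat.eq_zero_or_pos e with h | h
      · subst h
        rw [Ph_zero]
        simp
      · linarith [hc e h]
    have h := abel F (fun e => Ph z e - c * e) hF hD (by simp [Ph_zero]) M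
    have h2 : 0 ≤ F M * (Ph z M - c * M) := mul_nonneg (hF0 M) (hD M)
    have h3 : ∑ e ∈ range M, F (e + 1) * ((Ph z (e + 1) - c * ((e + 1 : ℕ) : ℝ)) - (Ph z e - c * e))
        = ∑ e ∈ range M, F (e + 1) * (Ph z (e + 1) - Ph z e) - c * ∑ e ∈ range M, F (e + 1) := by
      rw [Finset.mul_sum, ← Finset.sum_sub_distrib]
      apply Finset.sum_congr rfl
      intro e _
      push_cast
      ring
    rw [h3] at h
    linarith
  · have hD : ∀ e, 0 ≤ C * e - Ph z e := by
      intro e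
      rcases Nat.eq_zero_or_pos e with h | h
      · subst h
        rw [Ph_zero]
        simp
      · linarith [hC e h]
    have h := abel F (fun e => C * e - Ph z e) hF hD (by simp [Ph_zero]) M
    have h2 : 0 ≤ F M * (C * M - Ph z M) := mul_nonneg (hF0 M) (hD M)
    have h3 : ∑ e ∈ range M, F (e + 1) * ((C * ((e + 1 : ℕ) : ℝ) - Ph z (e + 1)) - (C * e - Ph z e))
        = C * ∑ e ∈ range M, F (e + 1) - ∑ e ∈ range M, F (e + 1) * (Ph z (e + 1) - Ph z e) := by
      rw [Finset.mul_sum, ← Finset.sum_sub_distrib]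
      apply Finset.sum_congr rfl
      intro e _
      push_cast
      ring
    rw [h3] at h
    linarith

section num

variable (A B : ℝ) (hA : 0 < A) (hB : 0 < B)

include hA hB

theorem lin_pos (e : ℕ) : 0 < A + B * e := by positivity

theorem sum_lower (M : ℕ) :
    1 / B * Real.log ((A + B * (M + 1)) / (A + B)) ≤ ∑ e ∈ range M, 1 / (A + B * ((e + 1 : ℕ) : ℝ)) := by
  induction M with
  | zero =>
    have : (A + B * ((0 : ℕ) + 1)) / (A + B) = 1 := by
      rw [Nat.cast_zero, zero_add, mul_one, div_self (by positivity)]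
    rw [this]
    simp
  | succ M ih =>
    rw [Finset.sum_range_succ]
    have hx : 0 < A + B * ((M : ℝ) + 1) := by positivity
    have hy : 0 < A + B * ((M : ℝ) + 1 + 1) := by positivity
    have hAB : 0 < A + B := by positivity
    have h1 : Real.log ((A + B * (((M + 1 : ℕ) : ℝ) + 1)) / (A + B)) =
        Real.log ((A + B * ((M : ℝ) + 1)) / (A + B)) +
          Real.log ((A + B * ((M : ℝ) + 1 + 1)) / (A + B * ((M : ℝ) + 1))) := by
      rw [← Real.log_mul (by positivity) (by positivity)]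
      congr 1
      push_cast
      field_simp
    have h2 : Real.log ((A + B * ((M : ℝ) + 1 + 1)) / (A + B * ((M : ℝ) + 1))) ≤
        B / (A + B * ((M : ℝ) + 1)) := by
      have h3 := Real.log_le_sub_one_of_pos
        (show 0 < (A + B * ((M : ℝ) + 1 + 1)) / (A + B * ((M : ℝ) + 1)) by positivity)
      have h4 : (A + B * ((M : ℝ) + 1 + 1)) / (A + B * ((M : ℝ) + 1)) - 1 =
          B / (A + B * ((M : ℝ) + 1)) := by
        field_simp
        ring
      linarith
    have h5 : 1 / B * (B / (A + B * ((M : ℝ) + 1))) = 1 / (A + B * ((M + 1 : ℕ) : ℝ)) := by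
      push_cast
      field_simp
    rw [h1, mul_add]
    have h6 : 1 / B * Real.log ((A + B * ((M : ℝ) + 1 + 1)) / (A + B * ((M : ℝ) + 1))) ≤
        1 / B * (B / (A + B * ((M : ℝ) + 1))) := mul_le_mul_of_nonneg_left h2 (by positivity)
    linarith

theorem sum_upper (M : ℕ) :
    ∑ e ∈ range M, 1 / (A + B * ((e + 1 : ℕ) : ℝ)) ≤ 1 / B * Real.log ((A + B * M) / A) := by
  induction M with
  | zero =>
    have : (A + B * ((0 : ℕ) : ℝ)) / A = 1 := by
      rw [Nat.cast_zero, mul_zero, add_zero, div_self (by positivity)]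
    rw [this]
    simp
  | succ M ih =>
    rw [Finset.sum_range_succ]
    have hx : 0 < A + B * (M : ℝ) := by positivity
    have hy : 0 < A + B * ((M : ℝ) + 1) := by positivity
    have h1 : Real.log ((A + B * ((M + 1 : ℕ) : ℝ)) / A) =
        Real.log ((A + B * (M : ℝ)) / A) -
          Real.log ((A + B * (M : ℝ)) / (A + B * ((M : ℝ) + 1))) := by
      rw [← Real.log_div (by positivity) (by positivity)]
      congr 1
      push_cast
      field_simp
    have h2 : Real.log ((A + B * (M : ℝ)) / (A + B * ((M : ℝ) + 1))) ≤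
        -(B / (A + B * ((M : ℝ) + 1))) := by
      have h3 := Real.log_le_sub_one_of_pos
        (show 0 < (A + B * (M : ℝ)) / (A + B * ((M : ℝ) + 1)) by positivity)
      have h4 : (A + B * (M : ℝ)) / (A + B * ((M : ℝ) + 1)) - 1 =
          -(B / (A + B * ((M : ℝ) + 1))) := by
        field_simp
        ring
      linarith
    have h5 : 1 / B * (B / (A + B * ((M : ℝ) + 1))) = 1 / (A + B * ((M + 1 : ℕ) : ℝ)) := by
      push_cast
      field_simp
    rw [h1, mul_sub]
    have h6 : 1 / B * Real.log ((A + B * (M : ℝ)) / (A + B * ((M : ℝ) + 1))) ≤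
        1 / B * (-(B / (A + B * ((M : ℝ) + 1)))) := mul_le_mul_of_nonneg_left h2 (by positivity)
    have h7 : 1 / B * (-(B / (A + B * ((M : ℝ) + 1)))) = -(1 / (A + B * ((M + 1 : ℕ) : ℝ))) := by
      rw [← h5]
      ring
    linarith

theorem sq_upper (M : ℕ) :
    ∑ e ∈ range M, 1 / (A + B * ((e + 1 : ℕ) : ℝ)) ^ 2 ≤ 1 / B * (1 / A - 1 / (A + B * M)) := by
  induction M with
  | zero => simp
  | succ M ih =>
    rw [Finset.sum_range_succ]
    have hx : 0 < A + B * (M : ℝ) := by positivity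
    have hy : 0 < A + B * ((M : ℝ) + 1) := by positivity
    have h1 : 1 / (A + B * ((M + 1 : ℕ) : ℝ)) ^ 2 ≤
        1 / B * (1 / (A + B * M) - 1 / (A + B * ((M + 1 : ℕ) : ℝ))) := by
      push_cast
      have h2 : 1 / B * (1 / (A + B * (M : ℝ)) - 1 / (A + B * ((M : ℝ) + 1))) =
          1 / ((A + B * (M : ℝ)) * (A + B * ((M : ℝ) + 1))) := by
        field_simp
        ring
      rw [h2]
      apply one_div_le_one_div_of_le (by positivity)
      nlinarith
    have h3 : 1 / B * (1 / A - 1 / (A + B * ((M + 1 : ℕ) : ℝ))) =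
        1 / B * (1 / A - 1 / (A + B * M)) +
          1 / B * (1 / (A + B * M) - 1 / (A + B * ((M + 1 : ℕ) : ℝ))) := by ring
    linarith

theorem sq_lower (M : ℕ) :
    1 / B * (1 / (A + B) - 1 / (A + B * (M + 1))) ≤
      ∑ e ∈ range M, 1 / (A + B * ((e + 1 : ℕ) : ℝ)) ^ 2 := by
  induction M with
  | zero => simp
  | succ M ih =>
    rw [Finset.sum_range_succ]
    have hx : 0 < A + B * ((M : ℝ) + 1) := by positivity
    have hy : 0 < A + B * ((M : ℝ) + 1 + 1) := by positivity
    have h1 : 1 / B * (1 / (A + B * ((M : ℝ) + 1)) - 1 / (A + B * ((M : ℝ) + 1 + 1))) ≤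
        1 / (A + B * ((M + 1 : ℕ) : ℝ)) ^ 2 := by
      push_cast
      have h2 : 1 / B * (1 / (A + B * ((M : ℝ) + 1)) - 1 / (A + B * ((M : ℝ) + 1 + 1))) =
          1 / ((A + B * ((M : ℝ) + 1)) * (A + B * ((M : ℝ) + 1 + 1))) := by
        field_simp
        ring
      rw [h2]
      apply one_div_le_one_div_of_le (by positivity)
      nlinarith
    have h3 : 1 / B * (1 / (A + B) - 1 / (A + B * (((M + 1 : ℕ) : ℝ) + 1))) =
        1 / B * (1 / (A + B) - 1 / (A + B * ((M : ℝ) + 1))) +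
          1 / B * (1 / (A + B * ((M : ℝ) + 1)) - 1 / (A + B * ((M : ℝ) + 1 + 1))) := by
      push_cast
      ring
    linarith

end num

theorem ij : Pool.Agent.Helper23.MC.StmtIJ := by
  obtain ⟨c', C, hc', hC1, hma⟩ := Pool.Agent.Helper24.PP.ma
  refine ⟨c' / 4, C, by positivity, hC1, ?_⟩
  intro E z β hE hz hβ hβE
  have hA : (0 : ℝ) < (E : ℝ) := by
    have : 0 < E := by omega
    exact_mod_cast this
  have hB : (0 : ℝ) < (β : ℝ) := by
    have : 0 < β := by omega
    exact_mod_cast this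
  have hβE' : (β : ℝ) ≤ E := by exact_mod_cast hβE
  have hβ200 : (200 : ℝ) ≤ β := by exact_mod_cast hβ
  have hE64 : (64 : ℝ) ≤ E := by exact_mod_cast hE
  have hlo : ∀ m, 1 ≤ m → c' * m ≤ Ph z m := fun m hm => (hma z m hz hm).1
  have hup : ∀ m, 1 ≤ m → Ph z m ≤ C * m := fun m hm => (hma z m hz hm).2.1
  set M := E / 64 with hM
  have hM1 : (E : ℝ) / 64 ≤ (M : ℝ) + 1 := by
    have : E < 64 * (M + 1) := by omega
    have h : (E : ℝ) < 64 * ((M : ℝ) + 1) := by exact_mod_cast this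
    linarith
  have hME : (M : ℝ) ≤ E := by
    have : M ≤ E := by omega
    exact_mod_cast this
  set F1 : ℕ → ℝ := fun e => 1 / ((E : ℝ) + β * e) with hF1
  set F2 : ℕ → ℝ := fun e => 1 / ((E : ℝ) + β * e) ^ 2 with hF2
  have hpos : ∀ e : ℕ, 0 < (E : ℝ) + β * e := fun e => lin_pos _ _ hA hB e
  have hF1a : ∀ e, F1 (e + 1) ≤ F1 e := by
    intro e
    apply one_div_le_one_div_of_le (hpos e)
    push_cast
    nlinarith
  have hF10 : ∀ e, 0 ≤ F1 e := fun e => by
    have := hpos e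
    positivity
  have hF2a : ∀ e, F2 (e + 1) ≤ F2 e := by
    intro e
    have := hpos e
    apply one_div_le_one_div_of_le (by positivity)
    apply pow_le_pow_left₀ this.le
    push_cast
    nlinarith
  have hF20 : ∀ e, 0 ≤ F2 e := fun e => by
    have := hpos e
    positivity
  obtain ⟨b1l, b1u⟩ := bounds z hz c' C hlo hup F1 hF1a hF10 M
  obtain ⟨b2l, b2u⟩ := bounds z hz c' C hlo hup F2 hF2a hF20 M
  have e1 : ∑ s ∈ SS z (z ^ M), 1 / ((Nat.totient s : ℝ) * (E + β * ee z s)) =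
      ∑ s ∈ SS z (z ^ M), F1 (ee z s) * (1 / (Nat.totient s : ℝ)) := by
    apply Finset.sum_congr rfl
    intro s _
    simp only [hF1]
    rw [one_div_mul_one_div, mul_comm]
  have e2 : ∑ s ∈ SS z (z ^ M), 1 / ((Nat.totient s : ℝ) * (E + β * ee z s) ^ 2) =
      ∑ s ∈ SS z (z ^ M), F2 (ee z s) * (1 / (Nat.totient s : ℝ)) := by
    apply Finset.sum_congr rfl
    intro s _
    simp only [hF2]
    rw [one_div_mul_one_div, mul_comm]
  have s1l := sum_lower (E : ℝ) β hA hB M
  have s1u := sum_upper (E : ℝ) β hA hB M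
  have s2l := sq_lower (E : ℝ) β hA hB M
  have s2u := sq_upper (E : ℝ) β hA hB M
  have t1u : ∑ s ∈ SS z (z ^ M), 1 / ((Nat.totient s : ℝ) * (E + β * ee z s))
      ≤ C / β * Real.log (1 + β) := by
    rw [e1]
    refine b1u.trans ?_
    have h1 : ∑ e ∈ range M, F1 (e + 1) ≤ 1 / β * Real.log (1 + β) := by
      refine s1u.trans ?_
      apply mul_le_mul_of_nonneg_left _ (by positivity)
      apply Real.log_le_log (by positivity)
      rw [div_le_iff₀ hA]
      nlinarith
    calc C * ∑ e ∈ range M, F1 (e + 1) ≤ C * (1 / β * Real.log (1 + β)) :=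
          mul_le_mul_of_nonneg_left h1 (by linarith)
      _ = C / β * Real.log (1 + β) := by ring
  refine ⟨?_, t1u, ?_, ?_, ?_⟩
  · rw [e1]
    refine le_trans ?_ b1l
    have h1 : Real.log ((β : ℝ) / 130) ≤
        Real.log (((E : ℝ) + β * (M + 1)) / (E + β)) := by
      apply Real.log_le_log (by positivity)
      rw [div_le_div_iff₀ (by norm_num) (by positivity)]
      nlinarith [mul_le_mul_of_nonneg_left hM1 hB.le]
    have h0 : 0 ≤ Real.log ((β : ℝ) / 130) := by
      apply Real.log_nonneg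
      rw [le_div_iff₀ (by norm_num)]
      linarith
    have h2 : 1 / (β : ℝ) * Real.log ((β : ℝ) / 130) ≤ ∑ e ∈ range M, F1 (e + 1) :=
      (mul_le_mul_of_nonneg_left h1 (by positivity)).trans s1l
    calc c' / 4 / β * Real.log (β / 130) ≤ c' * (1 / (β : ℝ) * Real.log ((β : ℝ) / 130)) := by
          have h3 : 0 ≤ c' * (1 / (β : ℝ) * Real.log ((β : ℝ) / 130)) := by positivity
          have h4 : c' / 4 / β * Real.log (β / 130) =
            (1 / 4) * (c' * (1 / (β : ℝ) * Real.log ((β : ℝ) / 130))) := by ring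
          rw [h4]
          linarith
      _ ≤ c' * ∑ e ∈ range M, F1 (e + 1) := mul_le_mul_of_nonneg_left h2 hc'.le
  · rw [e2]
    refine b2u.trans ?_
    have h1 : ∑ e ∈ range M, F2 (e + 1) ≤ 1 / β * (1 / E) := by
      refine s2u.trans ?_
      apply mul_le_mul_of_nonneg_left _ (by positivity)
      have : 0 ≤ 1 / ((E : ℝ) + β * M) := by positivity
      linarith
    calc C * ∑ e ∈ range M, F2 (e + 1) ≤ C * (1 / β * (1 / E)) :=
          mul_le_mul_of_nonneg_left h1 (by linarith)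
      _ = C / (β * E) := by field_simp
  · rw [e2]
    refine le_trans ?_ b2l
    have h1 : 1 / (4 * ((β : ℝ) * E)) ≤ ∑ e ∈ range M, F2 (e + 1) := by
      refine le_trans ?_ s2l
      have h2 : 1 / (2 * (E : ℝ)) ≤ 1 / ((E : ℝ) + β) :=
        one_div_le_one_div_of_le (by positivity) (by linarith)
      have h3 : 1 / ((E : ℝ) + β * (M + 1)) ≤ 1 / (4 * (E : ℝ)) := by
        apply one_div_le_one_div_of_le (by positivity)
        have h5 : (β : ℝ) * (E / 64) ≤ β * (M + 1) := mul_le_mul_of_nonneg_left hM1 hB.le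
        nlinarith
      have h4 : 1 / (4 * ((β : ℝ) * E)) = 1 / β * (1 / (2 * (E : ℝ)) - 1 / (4 * (E : ℝ))) := by
        field_simp
        norm_num
      rw [h4]
      apply mul_le_mul_of_nonneg_left _ (by positivity)
      linarith
    calc c' / 4 / (β * E) = c' * (1 / (4 * ((β : ℝ) * E))) := by field_simp
      _ ≤ c' * ∑ e ∈ range M, F2 (e + 1) := mul_le_mul_of_nonneg_left h1 hc'.le
  · have h1 : ∑ s ∈ SS z (z ^ M), (ee z s : ℝ) / ((Nat.totient s : ℝ) * (E + β * ee z s) ^ 2) ≤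
        1 / β * ∑ s ∈ SS z (z ^ M), 1 / ((Nat.totient s : ℝ) * (E + β * ee z s)) := by
      rw [Finset.mul_sum]
      apply Finset.sum_le_sum
      intro s hs
      have hs1 : 1 ≤ s := by
        simp only [SS, mem_filter, mem_Ico] at hs
        exact hs.1.1
      have hφ : (0 : ℝ) < Nat.totient s := by exact_mod_cast Nat.totient_pos.2 hs1
      have hp := hpos (ee z s)
      rw [div_le_iff₀ (by positivity)]
      have h2 : 1 / (β : ℝ) * (1 / ((Nat.totient s : ℝ) * (E + β * ee z s))) *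
          ((Nat.totient s : ℝ) * (E + β * ee z s) ^ 2) = 1 / β * (E + β * ee z s) := by
        field_simp
      rw [h2]
      have h3 : 1 / (β : ℝ) * (E + β * ee z s) = E / β + ee z s := by field_simp
      rw [h3]
      have : 0 ≤ (E : ℝ) / β := by positivity
      linarith
    refine h1.trans ?_
    calc 1 / (β : ℝ) * ∑ s ∈ SS z (z ^ M), 1 / ((Nat.totient s : ℝ) * (E + β * ee z s)) ≤
          1 / β * (C / β * Real.log (1 + β)) := mul_le_mul_of_nonneg_left t1u (by positivity)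
      _ = C / β ^ 2 * Real.log (1 + β) := by field_simp

end Pool.Agent.Helper7.MC
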